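import Pool.Agent.Helper86.TC8.Stmts

set_option autoImplicit false

/-! Module EXT of the project TC8: repair of the centres. -/

namespace Pool.Agent.Helper32.TC8

open Pool.Agent.Helper86.TC8
open Finset
open scoped Classical

variable {V : Type}

/-! ### words -/

theorem inv2 (c : L) : c.inv.inv = c := by cases c <;> rfl

theorem act1_inv (G : CG V) (c : L) (x : V) : act1 G c.inv (act1 G c x) = x := by
  cases c
  · exact G.nu_nu x
  · exact G.fw_bw x
  · exact G.bw_fw x

theorem act1_inv' (G : CG V) (c : L) (x : V) : act1 G c (act1 G c.inv x) = x := by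
  have := act1_inv G c.inv x
  rwa [inv2] at this

theorem red_cons (c : L) (W : List L) :
    Red (c :: W) ↔ (∀ a W', W = a :: W' → c ≠ a.inv) ∧ Red W := by
  cases W with
  | nil => simp [Red]
  | cons a W' =>
    constructor
    · rintro ⟨h1, h2⟩
      refine ⟨?_, h2⟩
      intro a' W'' h
      rw [List.cons.injEq] at h
      rw [← h.1]
      exact h1
    · rintro ⟨h1, h2⟩
      exact ⟨h1 a W' rfl, h2⟩

theorem red_tail {c : L} {W : List L} (h : Red (c :: W)) : Red W := ((red_cons c W).mp h).2

/-- the inverse word of the first word, in front of the second one -/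
def rvi : List L → List L → List L
  | [], W => W
  | c :: W', W => rvi W' (c.inv :: W)

theorem rvi_length : ∀ W' W : List L, (rvi W' W).length = W'.length + W.length
  | [], W => by simp [rvi]
  | c :: W', W => by
    rw [rvi, rvi_length W' (c.inv :: W)]
    simp
    omega

theorem rvi_act (G : CG V) (z z' : V) : ∀ W' W : List L, act G W z = act G W' z' →
    act G (rvi W' W) z = z'
  | [], W, h => h
  | c :: W', W, h => by
    rw [rvi]
    apply rvi_act G z z' W' (c.inv :: W)
    rw [act, h, act, act1_inv]

/-- the heads differ -/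
def HD (W' W : List L) : Prop := ∀ c A c' A', W' = c :: A → W = c' :: A' → c ≠ c'

theorem rvi_red : ∀ W' W : List L, Red W' → Red W → HD W' W → Red (rvi W' W)
  | [], W, _, h, _ => h
  | c :: W', W, h', h, hd => by
    rw [rvi]
    apply rvi_red W' (c.inv :: W) (red_tail h')
    · rw [red_cons]
      refine ⟨?_, h⟩
      intro a A hA hc
      have := hd c W' a A rfl hA
      apply this
      rw [← inv2 c, hc, inv2]
    · intro a A a' A' h1 h2 h3
      rw [List.cons.injEq] at h2
      have h4 := (red_cons c W').mp h'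
      apply h4.1 a A h1
      rw [h3, ← h2.1, inv2]

section Main

variable (G : CG V) (Z : V → Bool) (nt : V → St) (R : ℕ)

/-- uniqueness of the centre and the word -/
theorem uniq (hz : ∀ z w, Z z = true → Red w → w ≠ [] → w.length ≤ 2 * R + 4 →
    Z (act G w z) = false) : ∀ (W W' : List L) (z z' : V), Z z = true → Z z' = true → Red W →
    Red W' → W.length + W'.length ≤ 2 * R + 4 → act G W z = act G W' z' → z = z' ∧ W = W' := by
  intro W
  induction W with
  | nil =>
    intro W' z z' h1 h2 h3 h4 h5 h6
    by_cases hW : W' = []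
    · subst hW
      exact ⟨h6, rfl⟩
    · exfalso
      have h7 := rvi_act G z z' W' [] h6
      have h8 := hz z (rvi W' []) h1 (rvi_red W' [] h4 h3 (by intro c A c' A' _ h; cases h)) (by
        intro h
        have := congrArg List.length h
        rw [rvi_length] at this
        simp at this
        exact hW this) (by rw [rvi_length]; simp at h5 ⊢; omega)
      rw [h7, h2] at h8
      exact absurd h8 (by decide)
  | cons c A ih =>
    intro W' z z' h1 h2 h3 h4 h5 h6
    by_cases hW : ∃ A', W' = c :: A'
    · obtain ⟨A', rfl⟩ := hW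
      have h7 : act G A z = act G A' z' := by
        have := congrArg (act1 G c.inv) h6
        rw [act, act, act1_inv, act1_inv] at this
        exact this
      have h8 := ih A' z z' h1 h2 (red_tail h3) (red_tail h4) (by simp at h5; omega) h7
      exact ⟨h8.1, by rw [h8.2]⟩
    · exfalso
      have h7 := rvi_act G z z' W' (c :: A) h6
      have h8 := hz z (rvi W' (c :: A)) h1 (rvi_red W' (c :: A) h4 h3 (by
        intro c1 A1 c2 A2 e1 e2 e3
        rw [List.cons.injEq] at e2
        apply hW
        exact ⟨A1, by rw [e1, e3, e2.1]⟩)) (by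
        intro h
        have := congrArg List.length h
        rw [rvi_length] at this
        simp at this) (by rw [rvi_length]; omega)
      rw [h7, h2] at h8
      exact absurd h8 (by decide)

/-- the pairs of the neighbours of a centre -/
def rootp : L → Pr
  | .n => ((false, false), (false, true))
  | .b => ((false, true), (false, false))
  | .f => ((true, false), (false, false))

/-- the pairs on the words -/
noncomputable def Q (z : V) : List L → Pr
  | [] => ((true, true), (true, true))
  | [a] => rootp a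
  | c :: a :: W =>
    if h : ∃ p ∈ feas (R - (W.length + 1)) (k1 a) (rd G nt (R - (W.length + 1)) (k1 a)
          (act1 G (k1 a) (act G (a :: W) z))),
        ∃ r ∈ feas (R - (W.length + 1)) (k2 a) (rd G nt (R - (W.length + 1)) (k2 a)
          (act1 G (k2 a) (act G (a :: W) z))), OKc (Q z (a :: W)) p r = true
    then (if c = k1 a then h.choose else h.choose_spec.2.choose) else Q z (a :: W)

theorem k12 (a : L) : k1 a ≠ k2 a := by cases a <;> decide

theorem kcases (a c : L) : c = a.inv ∨ c = k1 a ∨ c = k2 a := by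
  cases a <;> cases c <;> simp [L.inv, k1, k2]

/-- the children of a node -/
theorem Qstep (z : V) (a : L) (W : List L) (hW : W.length + 1 ≤ R)
    (hq : Q G nt R z (a :: W) ∈ feas (R - W.length) a (rd G nt (R - W.length) a
      (act G (a :: W) z))) :
    Q G nt R z (k1 a :: a :: W) ∈ feas (R - (W.length + 1)) (k1 a) (rd G nt (R - (W.length + 1)) (k1 a)
      (act G (k1 a :: a :: W) z)) ∧
    Q G nt R z (k2 a :: a :: W) ∈ feas (R - (W.length + 1)) (k2 a) (rd G nt (R - (W.length + 1)) (k2 a)
      (act G (k2 a :: a :: W) z)) ∧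
    OKc (Q G nt R z (a :: W)) (Q G nt R z (k1 a :: a :: W)) (Q G nt R z (k2 a :: a :: W)) = true := by
  have hd : R - W.length = (R - (W.length + 1)) + 1 := by omega
  rw [hd] at hq
  have h : ∃ p ∈ feas (R - (W.length + 1)) (k1 a) (rd G nt (R - (W.length + 1)) (k1 a)
          (act1 G (k1 a) (act G (a :: W) z))),
        ∃ r ∈ feas (R - (W.length + 1)) (k2 a) (rd G nt (R - (W.length + 1)) (k2 a)
          (act1 G (k2 a) (act G (a :: W) z))), OKc (Q G nt R z (a :: W)) p r = true := by
    have h1 : Q G nt R z (a :: W) ∈ comb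
        (feas (R - (W.length + 1)) (k1 a) (rd G nt (R - (W.length + 1)) (k1 a)
          (act1 G (k1 a) (act G (a :: W) z))))
        (feas (R - (W.length + 1)) (k2 a) (rd G nt (R - (W.length + 1)) (k2 a)
          (act1 G (k2 a) (act G (a :: W) z)))) := hq
    rw [comb, mem_filter] at h1
    exact h1.2
  have e1 : Q G nt R z (k1 a :: a :: W) = h.choose := by
    rw [Q, dif_pos h, if_pos rfl]
  have e2 : Q G nt R z (k2 a :: a :: W) = h.choose_spec.2.choose := by
    rw [Q, dif_pos h, if_neg (k12 a).symm]
  rw [e1, e2]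
  exact ⟨h.choose_spec.1, h.choose_spec.2.choose_spec.1, h.choose_spec.2.choose_spec.2⟩

theorem rootp_full (a : L) : rootp a ∈ full := by
  cases a <;> simp [rootp, full]

theorem Qmem (hf : ∀ z a, Z z = true → feas R a (rd G nt R a (act1 G a z)) = full) (z : V)
    (hz : Z z = true) : ∀ (W : List L) (a : L), Red (a :: W) → W.length ≤ R →
    Q G nt R z (a :: W) ∈ feas (R - W.length) a (rd G nt (R - W.length) a (act G (a :: W) z)) := by
  intro W
  induction W with
  | nil =>
    intro a _ _
    have h1 : Q G nt R z [a] = rootp a := by rw [Q]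
    rw [h1]
    have h2 := hf z a hz
    have h3 : act G [a] z = act1 G a z := rfl
    rw [h3, List.length_nil, Nat.sub_zero, h2]
    exact rootp_full a
  | cons a' W ih =>
    intro c hc hl
    rw [List.length_cons] at hl
    have h1 := ih a' (red_tail hc) (by omega)
    obtain ⟨h2, h3, -⟩ := Qstep G nt R z a' W hl h1
    rw [List.length_cons]
    rcases kcases a' c with h | h | h
    · exact absurd h (((red_cons c (a' :: W)).mp hc).1 a' W rfl)
    · subst h
      exact h2
    · subst h
      exact h3

/-- `y` is in the ball of the centre `z` -/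
def Bl (y z : V) (W : List L) : Prop := Z z = true ∧ Red W ∧ W.length ≤ R ∧ act G W z = y

/-- edge colours in the ball -/
noncomputable def eW (z : V) (c : L) (W : List L) : Col :=
  if Red (c :: W) then (Q G nt R z (c :: W)).1 else (Q G nt R z W).1

/-- the vertex colours -/
noncomputable def vcF (y : V) : Col :=
  if h : ∃ q : V × List L, Bl G Z R y q.1 q.2 then (Q G nt R h.choose.1 h.choose.2).2 else vcol (nt y)

/-- the edge colours -/
noncomputable def ecF (c : L) (y : V) : Col :=
  if h : ∃ q : V × List L, Bl G Z R y q.1 q.2 then eW G nt R h.choose.1 c h.choose.2 else ecol c (nt y)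

variable {G Z nt R}

theorem not_red_inv {c : L} {W : List L} (h : Red W) (h' : ¬ Red (c :: W)) :
    ∃ a W', W = a :: W' ∧ c = a.inv := by
  by_contra hc
  apply h'
  rw [red_cons]
  refine ⟨?_, h⟩
  intro a W' h1 h2
  exact hc ⟨a, W', h1, h2⟩

theorem not_red_cons (a : L) (W : List L) : ¬ Red (a.inv :: a :: W) := by
  intro h
  exact ((red_cons _ _).mp h).1 a W rfl rfl

theorem st_EXT (hCOL : ST_COL) : ST_EXT := by
  intro V G Z nt R _ hz hnat hf
  obtain ⟨col1, col2, col3, -⟩ := hCOL
  have hU := uniq G Z R hz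
  have hin : ∀ y z W, Bl G Z R y z W → ∀ h : ∃ q : V × List L, Bl G Z R y q.1 q.2,
      h.choose.1 = z ∧ h.choose.2 = W := by
    intro y z W hB h
    obtain ⟨b1, b2, b3, b4⟩ := h.choose_spec
    obtain ⟨a1, a2, a3, a4⟩ := hB
    exact hU _ _ _ _ b1 a1 b2 a2 (by omega) (by rw [b4, a4])
  have vin : ∀ y z W, Bl G Z R y z W → vcF G Z nt R y = (Q G nt R z W).2 := by
    intro y z W hB
    have h : ∃ q : V × List L, Bl G Z R y q.1 q.2 := ⟨(z, W), hB⟩
    obtain ⟨h1, h2⟩ := hin y z W hB h
    rw [vcF, dif_pos h, h1, h2]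
  have ein : ∀ y z W c, Bl G Z R y z W → ecF G Z nt R c y = eW G nt R z c W := by
    intro y z W c hB
    have h : ∃ q : V × List L, Bl G Z R y q.1 q.2 := ⟨(z, W), hB⟩
    obtain ⟨h1, h2⟩ := hin y z W hB h
    rw [ecF, dif_pos h, h1, h2]
  -- local facts
  have hQ : ∀ z, Z z = true → ∀ (a : L) (W : List L), Red (a :: W) → W.length + 1 ≤ R →
      OKc (Q G nt R z (a :: W)) (Q G nt R z (k1 a :: a :: W)) (Q G nt R z (k2 a :: a :: W)) = true := by
    intro z hz1 a W hr hl
    exact (Qstep G nt R z a W hl (Qmem G Z nt R hf z hz1 W a hr (by omega))).2.2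
  have hred1 : ∀ (a : L) (W : List L), Red (a :: W) → Red (k1 a :: a :: W) ∧ Red (k2 a :: a :: W) := by
    intro a W hr
    refine ⟨⟨?_, hr⟩, ⟨?_, hr⟩⟩ <;> (cases a <;> decide)
  have L3 : ∀ z W c, Z z = true → Red W → W.length ≤ R → eW G nt R z c W ≠ (Q G nt R z W).2 := by
    intro z W c h1 h2 h3
    cases W with
    | nil =>
      have : Red [c] := trivial
      rw [eW, if_pos this, Q, Q]
      cases c <;> decide
    | cons a W' =>
      have h4 := hQ z h1 a W' h2 h3
      obtain ⟨r1, r2⟩ := hred1 a W' h2
      rw [OKc] at h4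
      simp only [Bool.and_eq_true, bne_iff_ne, ne_eq] at h4
      rcases kcases a c with h | h | h
      · subst h
        rw [eW, if_neg (not_red_cons a W')]
        exact h4.1.1.1.1.1.1.1
      · subst h
        rw [eW, if_pos r1]
        exact fun h => h4.1.1.1.1.2 h.symm
      · subst h
        rw [eW, if_pos r2]
        exact fun h => h4.1.1.1.2 h.symm
  have L4 : ∀ z W c c', Z z = true → Red W → W.length ≤ R → c ≠ c' →
      eW G nt R z c W ≠ eW G nt R z c' W := by
    intro z W c c' h1 h2 h3 hcc
    cases W with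
    | nil =>
      have r1 : Red [c] := trivial
      have r2 : Red [c'] := trivial
      rw [eW, eW, if_pos r1, if_pos r2, Q, Q]
      revert hcc
      cases c <;> cases c' <;> decide
    | cons a W' =>
      have h4 := hQ z h1 a W' h2 h3
      obtain ⟨r1, r2⟩ := hred1 a W' h2
      rw [OKc] at h4
      simp only [Bool.and_eq_true, bne_iff_ne, ne_eq] at h4
      have e0 : eW G nt R z a.inv (a :: W') = (Q G nt R z (a :: W')).1 := by
        rw [eW, if_neg (not_red_cons a W')]
      have e1 : eW G nt R z (k1 a) (a :: W') = (Q G nt R z (k1 a :: a :: W')).1 := by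
        rw [eW, if_pos r1]
      have e2 : eW G nt R z (k2 a) (a :: W') = (Q G nt R z (k2 a :: a :: W')).1 := by
        rw [eW, if_pos r2]
      have n1 : ¬ (Q G nt R z (a :: W')).1 = (Q G nt R z (k1 a :: a :: W')).1 := h4.1.1.1.1.1.1.2
      have n2 : ¬ (Q G nt R z (a :: W')).1 = (Q G nt R z (k2 a :: a :: W')).1 := h4.1.1.1.1.1.2
      have n3 : ¬ (Q G nt R z (k1 a :: a :: W')).1 = (Q G nt R z (k2 a :: a :: W')).1 := h4.1.1.2
      rcases kcases a c with h | h | h <;> rcases kcases a c' with h' | h' | h' <;> subst h <;>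
        subst h' <;> first
        | exact absurd rfl hcc
        | (rw [e0, e1]; exact n1)
        | (rw [e0, e2]; exact n2)
        | (rw [e1, e0]; exact fun h => n1 h.symm)
        | (rw [e1, e2]; exact n3)
        | (rw [e2, e0]; exact fun h => n2 h.symm)
        | (rw [e2, e1]; exact fun h => n3 h.symm)
  have L2 : ∀ z W c, Z z = true → Red (c :: W) → W.length ≤ R →
      (Q G nt R z W).2 ≠ (Q G nt R z (c :: W)).2 := by
    intro z W c h1 h2 h3
    cases W with
    | nil =>
      rw [Q, Q]
      cases c <;> decide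
    | cons a W' =>
      have h4 := hQ z h1 a W' (red_tail h2) h3
      rw [OKc] at h4
      simp only [Bool.and_eq_true, bne_iff_ne, ne_eq] at h4
      rcases kcases a c with h | h | h
      · subst h
        exact absurd h2 (not_red_cons a W')
      · subst h
        exact h4.1.2
      · subst h
        exact h4.2
  -- the edges of the ball
  have edge : ∀ y z W c, Bl G Z R y z W → Red (c :: W) →
      ecF G Z nt R c y = (Q G nt R z (c :: W)).1 ∧
      ecF G Z nt R c.inv (act1 G c y) = (Q G nt R z (c :: W)).1 ∧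
      vcF G Z nt R (act1 G c y) = (Q G nt R z (c :: W)).2 := by
    intro y z W c hB hr
    refine ⟨by rw [ein y z W c hB, eW, if_pos hr], ?_⟩
    obtain ⟨a1, a2, a3, a4⟩ := hB
    by_cases hl : W.length + 1 ≤ R
    · have hB' : Bl G Z R (act1 G c y) z (c :: W) := ⟨a1, hr, hl, by rw [act, a4]⟩
      rw [ein _ z (c :: W) _ hB', vin _ z (c :: W) hB', eW, if_neg (not_red_cons c W)]
      exact ⟨rfl, rfl⟩
    · have hl' : W.length = R := by omega
      have hout : ¬ ∃ q : V × List L, Bl G Z R (act1 G c y) q.1 q.2 := by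
        rintro ⟨q, b1, b2, b3, b4⟩
        have := (hU (c :: W) q.2 z q.1 a1 b1 hr b2 (by simp only [List.length_cons]; omega)
          (by rw [act, a4, b4])).2
        rw [← this] at b3
        simp only [List.length_cons] at b3
        omega
      have hm := Qmem G Z nt R hf z a1 W c hr a3
      rw [hl', Nat.sub_self] at hm
      have hm2 : Q G nt R z (c :: W) = pair c (nt (act G (c :: W) z)) := by
        have h5 : feas 0 c (rd G nt 0 c (act G (c :: W) z)) = {pair c (nt (act G (c :: W) z))} := rfl
        rw [h5, mem_singleton] at hm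
        exact hm
      rw [ecF, dif_neg hout, vcF, dif_neg hout, hm2, act, a4]
      exact ⟨rfl, rfl⟩
  -- edges with one end in a ball
  have edge2 : ∀ y z W c, Bl G Z R y z W →
      ecF G Z nt R c y = ecF G Z nt R c.inv (act1 G c y) ∧
      vcF G Z nt R y ≠ vcF G Z nt R (act1 G c y) := by
    intro y z W c hB
    by_cases hr : Red (c :: W)
    · obtain ⟨e1, e2, e3⟩ := edge y z W c hB hr
      rw [e1, e2, e3, vin y z W hB]
      exact ⟨rfl, L2 z W c hB.1 hr hB.2.2.1⟩
    · obtain ⟨a, W', hW, hc⟩ := not_red_inv hB.2.1 hr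
      subst hW
      obtain ⟨a1, a2, a3, a4⟩ := hB
      simp only [List.length_cons] at a3
      have hy' : act1 G c y = act G W' z := by
        rw [← a4, act, hc, act1_inv]
      have hB' : Bl G Z R (act1 G c y) z W' := ⟨a1, red_tail a2, by omega, hy'.symm⟩
      obtain ⟨e1, e2, e3⟩ := edge _ z W' a hB' a2
      have hy : act1 G a (act1 G c y) = y := by rw [hc, act1_inv']
      rw [hy] at e2 e3
      have hci : c.inv = a := by rw [hc, inv2]
      rw [hci, e1, hc, e2, e3, ← hc, vin _ z W' hB']
      exact ⟨rfl, (L2 z W' a a1 a2 (by omega)).symm⟩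
  refine ⟨vcF G Z nt R, ecF G Z nt R, ?_⟩
  have both : ∀ c y, ecF G Z nt R c y = ecF G Z nt R c.inv (act1 G c y) ∧
      vcF G Z nt R y ≠ vcF G Z nt R (act1 G c y) := by
    intro c y
    by_cases h1 : ∃ q : V × List L, Bl G Z R y q.1 q.2
    · obtain ⟨q, hq⟩ := h1
      exact edge2 y q.1 q.2 c hq
    · by_cases h2 : ∃ q : V × List L, Bl G Z R (act1 G c y) q.1 q.2
      · obtain ⟨q, hq⟩ := h2
        obtain ⟨e1, e2⟩ := edge2 _ q.1 q.2 c.inv hq
        rw [act1_inv, inv2] at e1
        rw [act1_inv] at e2
        exact ⟨e1.symm, e2.symm⟩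
      · have z1 : Z y = false := by
          by_contra h
          exact h1 ⟨(y, []), by simpa using h, trivial, Nat.zero_le _, rfl⟩
        have z2 : Z (act1 G c y) = false := by
          by_contra h
          exact h2 ⟨(act1 G c y, []), by simpa using h, trivial, Nat.zero_le _, rfl⟩
        have h3 := col1 c _ _ (hnat c y z1 z2)
        rw [ecF, dif_neg h1, ecF, dif_neg h2, vcF, dif_neg h1, vcF, dif_neg h2]
        exact h3
  refine ⟨fun c x => (both c x).1, fun c x => (both c x).2, ?_, ?_⟩
  · intro c x
    by_cases h1 : ∃ q : V × List L, Bl G Z R x q.1 q.2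
    · obtain ⟨q, hq⟩ := h1
      rw [ein x q.1 q.2 c hq, vin x q.1 q.2 hq]
      exact L3 q.1 q.2 c hq.1 hq.2.1 hq.2.2.1
    · rw [ecF, dif_neg h1, vcF, dif_neg h1]
      exact col2 c _
  · intro c c' x hcc
    by_cases h1 : ∃ q : V × List L, Bl G Z R x q.1 q.2
    · obtain ⟨q, hq⟩ := h1
      rw [ein x q.1 q.2 c hq, ein x q.1 q.2 c' hq]
      exact L4 q.1 q.2 c c' hq.1 hq.2.1 hq.2.2.1 hcc
    · rw [ecF, dif_neg h1, ecF, dif_neg h1]
      exact col3 c c' _ hcc

end Main

end Pool.Agent.Helper32.TC8
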