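import Pool.Agent.Helper86.TC8.Base
import Pool.Agent.Helper86.TC8.Stmts

set_option autoImplicit false

/-! Module REL of the project TC8: relations between the sides. -/

namespace Pool.Agent.Helper32.TC8R

open Pool.Agent.Helper86.TC8
open Finset
open scoped Classical

variable {V : Type}

/-- the word of one link -/
def blk : Bool → List L
  | true => [.n]
  | false => [.b, .n, .f]

/-- the word of `k` links, the first one of type `β` -/
def cw : ℕ → Bool → List L
  | 0, _ => []
  | k + 1, β => cw k (!β) ++ blk β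

theorem act_blk (G : CG V) (β : Bool) (x : V) : act G (blk β) x = link G β x := by
  cases β <;> rfl

theorem act_cw (G : CG V) (k : ℕ) (β : Bool) (x : V) :
    act G (cw (k + 1) β) x = act G (cw k (!β)) (link G β x) := by
  rw [cw, act_append, act_blk]

theorem length_cw : ∀ (k : ℕ) (β : Bool), (cw k β).length ≤ 3 * k
  | 0, _ => by simp [cw]
  | k + 1, β => by
    have := length_cw k (!β)
    rw [cw, List.length_append]
    have h : (blk β).length ≤ 3 := by cases β <;> decide
    omega

theorem red_cw : ∀ (k : ℕ) (β : Bool) (w : List L), Red (blk β ++ w) → Red (cw k β ++ w)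
  | 0, β, w, h => Red.of_append_right h
  | k + 1, β, w, h => by
    rw [cw, List.append_assoc]
    apply red_cw k (!β)
    cases β
    · exact ⟨by decide, h⟩
    · exact ⟨by decide, by decide, by decide, h⟩

theorem red_cw' (k : ℕ) (β : Bool) : Red (cw k β) := by
  have h := red_cw k β [] (by cases β <;> simp [blk, Red, L.inv])
  rwa [List.append_nil] at h

theorem cw_ne (i j : ℕ) (β : Bool) (h : 1 ≤ i) : cw i β ≠ cw j (!β) := by
  obtain ⟨i, rfl⟩ : ∃ i', i = i' + 1 := ⟨i - 1, by omega⟩
  intro he
  rcases j with _ | j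
  · have := congrArg List.length he
    rw [cw, cw, List.length_append] at this
    cases β <;> simp [blk] at this
  · have := congrArg List.getLast? he
    rw [cw, cw] at this
    cases β <;> simp [blk] at this

theorem link_link (G : CG V) (β : Bool) (x : V) : link G β (link G β x) = x := by
  cases β
  · simp only [link, Tm, Bool.false_eq_true, if_false]
    rw [G.fw_bw, G.nu_nu, G.bw_fw]
  · simp only [link, if_true]
    exact G.nu_nu x

theorem ok_link (G : CG V) (Z : V → Bool) (β : Bool) (x : V) :
    ok G Z β (link G β x) = ok G Z β x := by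
  cases β
  · simp only [ok, link, Tm, Bool.false_eq_true, if_false]
    rw [G.fw_bw, G.nu_nu, G.bw_fw]
    cases Z x <;> cases Z (G.bw (G.nu (G.fw x))) <;> cases Z (G.fw x) <;>
      cases Z (G.nu (G.fw x)) <;> rfl
  · simp only [ok, link, if_true]
    rw [G.nu_nu]
    cases Z x <;> cases Z (G.nu x) <;> rfl

theorem scan_word (G : CG V) (Z : V → Bool) : ∀ (k : ℕ) (β : Bool) (x : V), ∃ j ≤ k,
    (scan G Z k β x).1 = act G (cw j β) x ∧ (ok G Z β x = true → 1 ≤ k → 1 ≤ j)
  | 0, β, x => ⟨0, le_refl _, rfl, fun _ h => h⟩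
  | k + 1, β, x => by
    rw [scan]
    by_cases h : ok G Z β x = true
    · rw [if_pos h]
      obtain ⟨j, h1, h2, -⟩ := scan_word G Z k (!β) (link G β x)
      refine ⟨j + 1, by omega, ?_, fun _ _ => by omega⟩
      rw [act_cw, ← h2]
    · rw [if_neg h]
      exact ⟨0, Nat.zero_le _, rfl, fun h' => absurd h' h⟩

theorem scan_succ (G : CG V) (Z : V → Bool) (k : ℕ) (β : Bool) (x : V) :
    scan G Z (k + 1) β x = if ok G Z β x then
      ((scan G Z k (!β) (link G β x)).1, (scan G Z k (!β) (link G β x)).2 ^^ β) else (x, false) := rfl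

theorem scan_fuel (G : CG V) (Z : V → Bool) : ∀ (k : ℕ) (β : Bool) (x : V), Ends G Z k β x →
    scan G Z (k + 1) β x = scan G Z k β x
  | 0, β, x, h => by
    have h' : ok G Z β x = false := h
    rw [scan_succ, h']
    rfl
  | k + 1, β, x, h => by
    rw [scan_succ G Z (k + 1) β x, scan_succ G Z k β x]
    by_cases h' : ok G Z β x = true
    · rw [if_pos h', if_pos h']
      have h2 : Ends G Z k (!β) (link G β x) := by
        rcases h with h | h
        · rw [h'] at h
          exact absurd h (by decide)
        · exact h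
      rw [scan_fuel G Z k (!β) (link G β x) h2]
    · rw [if_neg h', if_neg h']

variable {C : Ctx V} {R D0 D1 : ℕ}

/-- one link: scanning from `x` in its direction is scanning from the other end onwards -/
theorem scan_link (H : Hyp C R D0 D1) (β : Bool) (x : V) (h : ok C.G C.Z β x = true) :
    scan C.G C.Z C.K β x = ((scan C.G C.Z C.K (!β) (link C.G β x)).1,
      (scan C.G C.Z C.K (!β) (link C.G β x)).2 ^^ β) := by
  obtain ⟨k, hk⟩ : ∃ k, C.K = k + 1 := ⟨C.K - 1, by have := H.Kpos; omega⟩
  have h1 := H.z3 β x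
  rw [hk] at h1 ⊢
  have h2 : Ends C.G C.Z k (!β) (link C.G β x) := by
    rcases h1 with h1 | h1
    · rw [h] at h1
      exact absurd h1 (by decide)
    · exact h1
  rw [scan_fuel C.G C.Z k (!β) _ h2, scan, if_pos h]

theorem ends_ne (H : Hyp C R D0 D1) (β : Bool) (x : V) (h : ok C.G C.Z β x = true) :
    (scan C.G C.Z C.K β x).1 ≠ (scan C.G C.Z C.K (!β) x).1 := by
  obtain ⟨i, h1, h2, h3⟩ := scan_word C.G C.Z C.K β x
  obtain ⟨j, h4, h5, -⟩ := scan_word C.G C.Z C.K (!β) x
  rw [h2, h5]
  intro he
  have h6 := length_cw i β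
  have h7 := length_cw j (!β)
  exact cw_ne i j β (h3 h H.Kpos) (Free.inj H.free (red_cw' i β) (red_cw' j (!β)) (by omega) he)

theorem rep_link (H : Hyp C R D0 D1) (β : Bool) (x : V) (h : ok C.G C.Z β x = true) :
    rep C (link C.G β x) = ((rep C x).1, (rep C x).2 ^^ β) := by
  have hy : ok C.G C.Z β (link C.G β x) = true := by rw [ok_link, h]
  have e1 := scan_link H β x h
  have e2 := scan_link H β (link C.G β x) hy
  rw [link_link] at e2
  have hne := ends_ne H β x h
  have hrk : C.rk (scan C.G C.Z C.K β x).1 ≠ C.rk (scan C.G C.Z C.K (!β) x).1 :=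
    fun hh => hne (H.rk_inj hh)
  set y := link C.G β x with hyd
  cases β
  · simp only [Bool.not_false] at e1 e2 hrk
    have e3 : (scan C.G C.Z C.K true y).1 = (scan C.G C.Z C.K false x).1 := by rw [e1]
    have e4 : (scan C.G C.Z C.K false y).1 = (scan C.G C.Z C.K true x).1 := by rw [e2]
    unfold rep
    rw [e3, e4]
    by_cases hc : C.rk (scan C.G C.Z C.K true x).1 ≤ C.rk (scan C.G C.Z C.K false x).1
    · rw [if_pos hc, if_neg (by omega), e2]
    · rw [if_neg hc, if_pos (by omega), e1]
      simp
  · simp only [Bool.not_true] at e1 e2 hrk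
    have e3 : (scan C.G C.Z C.K false y).1 = (scan C.G C.Z C.K true x).1 := by rw [e1]
    have e4 : (scan C.G C.Z C.K true y).1 = (scan C.G C.Z C.K false x).1 := by rw [e2]
    unfold rep
    rw [e3, e4]
    by_cases hc : C.rk (scan C.G C.Z C.K true x).1 ≤ C.rk (scan C.G C.Z C.K false x).1
    · rw [if_pos hc, if_neg (by omega), e1]
      simp
    · rw [if_neg hc, if_pos (by omega), e2]

theorem sd_link (H : Hyp C R D0 D1) (p : V → Bool) (β : Bool) (x : V)
    (h : ok C.G C.Z β x = true) : sd C p (link C.G β x) = (sd C p x ^^ β) := by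
  unfold sd
  rw [rep_link H β x h]
  simp

theorem st_REL : ST_REL := by
  intro V C R D0 D1 H p x hx
  have hnu : C.Z (C.G.nu x) = false → sd C p (C.G.nu x) = !sd C p x := by
    intro h
    have h1 := sd_link H p true x (by simp [ok, hx, h])
    simpa [link] using h1
  -- the other link
  have hT : C.Z (C.G.nu x) = false → C.Z (C.G.bw x) = false → C.Z (C.G.bw (C.G.nu x)) = false →
      sd C p (C.G.bw (C.G.nu x)) = sd C p (C.G.bw x) := by
    intro h1 h2 h3
    have h4 := sd_link H p false (C.G.bw x) (by
      simp only [ok, Tm, Bool.false_eq_true, if_false]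
      rw [C.G.fw_bw, hx, h1, h2, h3]
      rfl)
    simp only [link, Tm, Bool.false_eq_true, if_false] at h4
    rw [C.G.fw_bw] at h4
    simpa using h4
  refine ⟨hnu, ?_, ?_, ?_⟩
  · intro h
    unfold ps
    rw [h]
    simp
  · intro h1 h2
    unfold ps
    by_cases h3 : C.Z (C.G.bw x) = true
    · rw [if_pos h3]
      simp
    · rw [if_neg h3]
      rw [Bool.not_eq_true] at h3
      rw [hT h1 h3 h2]
      simp
  · intro h1
    unfold ps
    rw [C.G.nu_nu, hnu h1]
    by_cases h2 : C.Z (C.G.bw x) = true
    · by_cases h3 : C.Z (C.G.bw (C.G.nu x)) = true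
      · exfalso
        have h4 := H.z1 (C.G.bw x) [.b, .n, .f] h2 ⟨by decide, by decide, trivial⟩ (by simp)
          (by have := H.D0R; simp; omega)
        have h5 : act C.G [.b, .n, .f] (C.G.bw x) = C.G.bw (C.G.nu x) := by
          simp only [act, act1]
          rw [C.G.fw_bw]
        rw [h5, h3] at h4
        exact absurd h4 (by decide)
      · rw [if_pos h2, if_neg h3]
        simp
    · by_cases h3 : C.Z (C.G.bw (C.G.nu x)) = true
      · rw [if_neg h2, if_pos h3]
        simp
      · rw [if_neg h2, if_neg h3]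
        rw [Bool.not_eq_true] at h2 h3
        rw [hT h1 h2 h3]
        simp

end Pool.Agent.Helper32.TC8R
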